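import Pool.Agent.H93.GT.Targets
import Pool.Agent.H29.SC.ALT

/-!
# Alternating sums over short lacunary windows: module GAL of MP_de9001_an
-/

set_option autoImplicit false

namespace Pool.Agent.H1.GT

open Pool.Agent.H93.GT Pool.Agent.H87.Synth Pool.Agent.H85.SC Finset
open Pool.Agent.H29.SC (sum_Ico_int ne_zero_of_norm norm_pow_sub_one sum_N_le sum_inv_le alt_sign)

theorem avg_one (X L : ℕ) (w : ℂ) : avg X L (fun _ => 1) w =
    (1 / (L : ℂ)) * (w ^ X * ∑ j ∈ Finset.range L, w ^ j) := by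
  unfold avg
  congr 1
  rw [sum_Ico_int, Finset.mul_sum]
  apply Finset.sum_congr rfl
  intro j _
  rw [one_mul, ← Nat.cast_add, zpow_natCast, pow_add]

theorem norm_avg_le_one {X L : ℕ} (hL : 0 < L) {w : ℂ} (hw : ‖w‖ = 1) :
    ‖avg X L (fun _ => 1) w‖ ≤ 1 := by
  rw [avg_one, norm_mul, norm_mul, norm_pow, hw, one_pow, one_mul]
  have hN' : (0 : ℝ) < L := by exact_mod_cast hL
  have h1 : ‖∑ j ∈ Finset.range L, w ^ j‖ ≤ L := by
    calc ‖∑ j ∈ Finset.range L, w ^ j‖ ≤ ∑ j ∈ Finset.range L, ‖w ^ j‖ := norm_sum_le _ _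
      _ = L := by simp [norm_pow, hw]
  have h2 : ‖(1 / (L : ℂ))‖ = 1 / L := by
    rw [norm_div, norm_one, Complex.norm_natCast]
  rw [h2]
  calc 1 / (L : ℝ) * ‖∑ j ∈ Finset.range L, w ^ j‖ ≤ 1 / L * L := by gcongr
    _ = 1 := by field_simp

theorem norm_avg_le {X L : ℕ} (hL : 0 < L) {w : ℂ} (hw : ‖w‖ = 1) (hw1 : w ≠ 1) :
    ‖avg X L (fun _ => 1) w‖ ≤ 2 / ‖w - 1‖ * (L : ℝ)⁻¹ := by
  rw [avg_one, norm_mul, norm_mul, norm_pow, hw, one_pow, one_mul, geom_sum_eq hw1]
  have hN' : (0 : ℝ) < L := by exact_mod_cast hL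
  have hd : 0 < ‖w - 1‖ := norm_pos_iff.mpr (sub_ne_zero.mpr hw1)
  have h1 : ‖w ^ L - 1‖ ≤ 2 := by
    calc ‖w ^ L - 1‖ ≤ ‖w ^ L‖ + ‖(1 : ℂ)‖ := norm_sub_le _ _
      _ = 2 := by rw [norm_pow, hw, one_pow, norm_one]; norm_num
  have h2 : ‖(1 / (L : ℂ))‖ = (L : ℝ)⁻¹ := by
    rw [norm_div, norm_one, Complex.norm_natCast, one_div]
  rw [h2, mul_comm, norm_div]
  gcongr

theorem norm_avg_sub {X L : ℕ} (hL : 0 < L) (hLX : L ≤ X) {w : ℂ} (hw : ‖w‖ = 1) :
    ‖avg X L (fun _ => 1) w - 1‖ ≤ 2 * ‖w - 1‖ * X := by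
  have hN' : (0 : ℝ) < L := by exact_mod_cast hL
  have hNc : (L : ℂ) ≠ 0 := by exact_mod_cast hL.ne'
  have h1 : avg X L (fun _ => 1) w - 1 =
      (1 / (L : ℂ)) * ∑ j ∈ Finset.range L, (w ^ (X + j) - 1) := by
    rw [avg_one, Finset.sum_sub_distrib, mul_sub]
    congr 1
    · rw [Finset.mul_sum]
      simp_rw [← pow_add]
    · simp
      field_simp
  rw [h1, norm_mul]
  have h2 : ‖(1 / (L : ℂ))‖ = (L : ℝ)⁻¹ := by
    rw [norm_div, norm_one, Complex.norm_natCast, one_div]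
  rw [h2]
  have h3 : ‖∑ j ∈ Finset.range L, (w ^ (X + j) - 1)‖ ≤ L * (2 * X * ‖w - 1‖) := by
    calc ‖∑ j ∈ Finset.range L, (w ^ (X + j) - 1)‖
        ≤ ∑ j ∈ Finset.range L, ‖w ^ (X + j) - 1‖ := norm_sum_le _ _
      _ ≤ ∑ _j ∈ Finset.range L, 2 * X * ‖w - 1‖ := by
          apply Finset.sum_le_sum
          intro j hj
          rw [Finset.mem_range] at hj
          refine (norm_pow_sub_one hw _).trans ?_
          apply mul_le_mul_of_nonneg_right _ (norm_nonneg _)
          have : (j : ℝ) ≤ X := by exact_mod_cast hj.le.trans hLX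
          push_cast
          linarith
      _ = L * (2 * X * ‖w - 1‖) := by simp
  calc (L : ℝ)⁻¹ * ‖∑ j ∈ Finset.range L, (w ^ (X + j) - 1)‖
      ≤ (L : ℝ)⁻¹ * (L * (2 * X * ‖w - 1‖)) := by gcongr
    _ = 2 * ‖w - 1‖ * X := by field_simp

theorem gal_tail (X L : ℕ → ℕ) (hN : ∀ a, 0 < L a ∧ 16 * L a ≤ L (a + 1)) {w : ℂ}
    (hw : ‖w‖ = 1) (hw1 : w ≠ 1) (K : ℕ) (s : ℕ → ℂ) (hs : ∀ a, ‖s a‖ = 1) :
    ‖∑ a ∈ Finset.range K, s a * avg (X a) (L a) (fun _ => 1) w‖ ≤
      32 / 15 / (L 0 * ‖w - 1‖) := by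
  have hd : 0 < ‖w - 1‖ := norm_pos_iff.mpr (sub_ne_zero.mpr hw1)
  have h0 : (0 : ℝ) < L 0 := by exact_mod_cast (hN 0).1
  calc ‖∑ a ∈ Finset.range K, s a * avg (X a) (L a) (fun _ => 1) w‖
      ≤ ∑ a ∈ Finset.range K, ‖s a * avg (X a) (L a) (fun _ => 1) w‖ := norm_sum_le _ _
    _ ≤ ∑ a ∈ Finset.range K, 2 / ‖w - 1‖ * (L a : ℝ)⁻¹ := by
        apply Finset.sum_le_sum
        intro a _
        rw [norm_mul, hs, one_mul]
        exact norm_avg_le (hN a).1 hw hw1
    _ = 2 / ‖w - 1‖ * ∑ a ∈ Finset.range K, (L a : ℝ)⁻¹ := by rw [Finset.mul_sum]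
    _ ≤ 2 / ‖w - 1‖ * (16 / 15 * (L 0 : ℝ)⁻¹) := by
        gcongr
        exact sum_inv_le K L hN
    _ = 32 / 15 / (L 0 * ‖w - 1‖) := by
        field_simp
        norm_num

theorem gal : T_GAL := by
  intro X L hXL w hw K
  have hsgn : ∀ a : ℕ, ‖(-1 : ℂ) ^ a‖ = 1 := fun a => by simp
  have hX : ∀ a, 0 < X a ∧ 16 * X a ≤ X (a + 1) := fun a =>
    ⟨(hXL a).1.trans_le (hXL a).2.1, (hXL a).2.2.trans (hXL (a + 1)).2.1⟩
  have hL : ∀ a, 0 < L a ∧ 16 * L a ≤ L (a + 1) := fun a =>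
    ⟨(hXL a).1, (Nat.mul_le_mul_left 16 (hXL a).2.1).trans (hXL a).2.2⟩
  constructor
  · by_cases hw1 : w = 1
    · have h1 : ∀ a, avg (X a) (L a) (fun _ => 1) w = 1 := by
        intro a
        have := norm_avg_sub (X := X a) (hL a).1 (hXL a).2.1 hw
        rw [hw1, sub_self, norm_zero, mul_zero, zero_mul] at this
        have h2 := norm_eq_zero.mp (le_antisymm this (norm_nonneg _))
        rw [hw1]
        exact sub_eq_zero.mp h2
      simp_rw [h1, mul_one]
      exact (alt_sign K).trans (by norm_num)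
    · have hd : 0 < ‖w - 1‖ := norm_pos_iff.mpr (sub_ne_zero.mpr hw1)
      -- initial segment
      have hinit : ∀ t, (∀ a < t, (X a : ℝ) * ‖w - 1‖ ≤ 1) →
          ‖∑ a ∈ Finset.range t, (-1) ^ a * avg (X a) (L a) (fun _ => 1) w‖ ≤ 1 + 32 / 15 := by
        intro t ht
        have h1 : ∑ a ∈ Finset.range t, (-1) ^ a * avg (X a) (L a) (fun _ => 1) w =
            ∑ a ∈ Finset.range t, (-1 : ℂ) ^ a +
              ∑ a ∈ Finset.range t, (-1) ^ a * (avg (X a) (L a) (fun _ => 1) w - 1) := by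
          rw [← Finset.sum_add_distrib]
          apply Finset.sum_congr rfl
          intro a _
          ring
        rw [h1]
        refine (norm_add_le _ _).trans (add_le_add (alt_sign t) ?_)
        rcases t with _ | t
        · simp; norm_num
        · calc ‖∑ a ∈ Finset.range (t + 1), (-1) ^ a * (avg (X a) (L a) (fun _ => 1) w - 1)‖
              ≤ ∑ a ∈ Finset.range (t + 1),
                ‖(-1) ^ a * (avg (X a) (L a) (fun _ => 1) w - 1)‖ := norm_sum_le _ _
            _ ≤ ∑ a ∈ Finset.range (t + 1), 2 * ‖w - 1‖ * X a := by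
                apply Finset.sum_le_sum
                intro a _
                rw [norm_mul, hsgn, one_mul]
                exact norm_avg_sub (hL a).1 (hXL a).2.1 hw
            _ = 2 * ‖w - 1‖ * ∑ a ∈ Finset.range (t + 1), (X a : ℝ) := by rw [Finset.mul_sum]
            _ ≤ 2 * ‖w - 1‖ * (16 / 15 * X t) := by
                gcongr
                exact sum_N_le X hX t
            _ = 32 / 15 * (X t * ‖w - 1‖) := by ring
            _ ≤ 32 / 15 * 1 := by
                gcongr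
                exact ht t (Nat.lt_succ_self t)
            _ = 32 / 15 := mul_one _
      by_cases hall : ∀ a < K, (X a : ℝ) * ‖w - 1‖ ≤ 1
      · exact (hinit K hall).trans (by norm_num)
      · push Not at hall
        classical
        set t := Nat.find hall with ht
        obtain ⟨htL, htN⟩ := Nat.find_spec hall
        have hmin : ∀ a < t, (X a : ℝ) * ‖w - 1‖ ≤ 1 := by
          intro a ha
          have h1 := Nat.find_min hall ha
          push Not at h1
          exact h1 (by omega)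
        obtain ⟨l, hl⟩ : ∃ l, K = t + 1 + l := ⟨K - (t + 1), by omega⟩
        rw [hl, Finset.sum_range_add, Finset.sum_range_succ]
        have h2 := gal_tail (fun a => X (t + 1 + a)) (fun a => L (t + 1 + a)) (fun a => by
          have := hL (t + 1 + a)
          rw [add_assoc (t + 1)] at this
          exact this) hw hw1 l (fun a => (-1) ^ (t + 1 + a)) (fun a => hsgn _)
        simp only [add_zero] at h2
        have h3 : 32 / 15 / ((L (t + 1) : ℝ) * ‖w - 1‖) ≤ 32 / 15 := by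
          apply div_le_self (by norm_num)
          have h5 : (16 : ℝ) * X t ≤ L (t + 1) := by exact_mod_cast (hXL t).2.2
          have h6 : (0 : ℝ) ≤ X t := Nat.cast_nonneg _
          have h7 : (X t : ℝ) * ‖w - 1‖ ≤ L (t + 1) * ‖w - 1‖ :=
            mul_le_mul_of_nonneg_right (by linarith) hd.le
          exact htN.le.trans h7
        have h4 := hinit t hmin
        have h8 : ‖(-1 : ℂ) ^ t * avg (X t) (L t) (fun _ => 1) w‖ ≤ 1 := by
          rw [norm_mul, hsgn, one_mul]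
          exact norm_avg_le_one (hL t).1 hw
        refine (norm_add_le _ _).trans ?_
        have h9 := norm_add_le (∑ a ∈ Finset.range t, (-1) ^ a * avg (X a) (L a) (fun _ => 1) w)
          ((-1 : ℂ) ^ t * avg (X t) (L t) (fun _ => 1) w)
        linarith [h2.trans h3]
  · intro hw1
    have hd : 0 < ‖w - 1‖ := norm_pos_iff.mpr (sub_ne_zero.mpr hw1)
    have h0 : (0 : ℝ) < L 0 := by exact_mod_cast (hL 0).1
    refine (gal_tail X L hL hw hw1 K (fun a => (-1) ^ a) hsgn).trans ?_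
    gcongr
    norm_num

end Pool.Agent.H1.GT
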